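import Pool.Agent.H49.N6D.SEV

/-!
# The local lemma for the model pencil (row DLL7)
-/

set_option autoImplicit false

open MeasureTheory Polynomial Pool.Agent.H28.N6 Pool.Agent.H34.N6

namespace Pool.Agent.H49.N6D

/-- linear independence passes along homomorphisms of fields -/
theorem li_map {K L : Type} [Field K] [Field L] (ψ : K →+* L) {m n : ℕ} (b : Fin m → Fin n → K)
    (hb : LinearIndependent K b) : LinearIndependent L (fun i j => ψ (b i j)) := by
  classical
  obtain ⟨g, hg⟩ := LinearMap.exists_leftInverse_of_injective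
    (Finsupp.linearCombination K b) (linearIndependent_iff_ker.1 hb)
  have hgb : ∀ i, g (b i) = Finsupp.single i 1 := by
    intro i
    have h := LinearMap.congr_fun hg (Finsupp.single i 1)
    simpa using h
  have hg2 : ∀ i j, ∑ k, b i k * g (Pi.single k 1) j = if i = j then 1 else 0 := by
    intro i j
    have h1 : b i = ∑ k, b i k • (Pi.single k 1 : Fin n → K) := by
      ext l
      simp [Finset.sum_apply, Pi.single_apply]
    have h2 : g (b i) j = Finsupp.single i (1 : K) j := by rw [hgb i]
    rw [h1, map_sum, Finsupp.finsetSum_apply] at h2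
    simp only [map_smul, Finsupp.smul_apply, smul_eq_mul] at h2
    rw [h2, Finsupp.single_apply]
  rw [Fintype.linearIndependent_iff]
  intro c hc j
  have h3 : ∑ k, (∑ i, c i * ψ (b i k)) * ψ (g (Pi.single k 1) j) = 0 := by
    refine Finset.sum_eq_zero fun k _ => ?_
    have h4 := congrFun hc k
    simp only [Finset.sum_apply, Pi.smul_apply, smul_eq_mul, Pi.zero_apply] at h4
    rw [h4, zero_mul]
  have h5 : ∑ k, (∑ i, c i * ψ (b i k)) * ψ (g (Pi.single k 1) j) = c j := by
    simp only [Finset.sum_mul]
    rw [Finset.sum_comm]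
    have h6 : ∀ i, ∑ k, c i * ψ (b i k) * ψ (g (Pi.single k 1) j) =
        c i * (if i = j then 1 else 0) := by
      intro i
      have h7 := congrArg ψ (hg2 i j)
      rw [map_sum] at h7
      simp only [map_mul] at h7
      have h8 : ψ (if i = j then 1 else 0) = if i = j then 1 else 0 := by
        split_ifs
        · exact map_one ψ
        · exact map_zero ψ
      rw [h8] at h7
      rw [← h7, Finset.mul_sum]
      refine Finset.sum_congr rfl fun k _ => ?_
      ring
    simp only [h6]
    simp
  rw [← h5, h3]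

theorem ti_map {K L : Type} [Field K] [Field L] (ψ : K →+* L) {n r : ℕ}
    (A : Matrix (Fin n) (Fin n) K) (h : TI A r) : TI (A.map ψ) r := by
  obtain ⟨b, hb, hz⟩ := h
  refine ⟨fun i j => ψ (b i j), li_map ψ b hb, fun i j => ?_⟩
  have h1 := congrArg ψ (hz i j)
  simp only [dotProduct, Matrix.mulVec, map_sum, map_mul, map_zero] at h1
  simp only [dotProduct, Matrix.mulVec, Matrix.map_apply]
  exact h1

theorem gA_symm {F : Type} [Field F] (P D : F[X]) (s : ℕ) : (gA P D s).transpose = gA P D s := by
  ext i j
  rw [Matrix.transpose_apply, gA, gA, add_comm (j : ℕ) (i : ℕ)]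

theorem pf_LL7 (hSEV : T_SEV) (hSPW : T_SPW) (hCNV : T_CNV) (hDDP : T_DDP) (hGMP : T_GMP) :
    Pool.Agent.H34.N6.T_LL7 := by
  classical
  intro F _ _ _ _ P D hP hP7 hsep hcop hCZ
  obtain ⟨c, hc, hdp⟩ := hDDP F P D hP hP7 hcop
  set A := gA P D 1 with hA
  set B := -gA P D 0 with hB
  have hAs : A.transpose = A := gA_symm P D 1
  have hBs : B.transpose = B := by
    rw [hB, Matrix.transpose_neg, gA_symm]
  have h2F : (2 : F) ≠ 0 := two_ne_zero
  have hdeg : (dp A B).natDegree = 7 := by
    rw [hdp, natDegree_C_mul hc, hP7]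
  have hsep' : (dp A B).Separable := by
    rw [hdp]
    refine hsep.of_dvd ⟨C c⁻¹, ?_⟩
    have h1 : C c * P * C c⁻¹ = (C c * C c⁻¹) * P := by ring
    rw [h1, ← C_mul, mul_inv_cancel₀ hc, C_1, one_mul]
  obtain ⟨x, hx, hx0, hx1⟩ := hCZ
  obtain ⟨E, i1, i2, i3, i4, hfin, hodd, hnorm, t, hdet, hiso⟩ := hSEV F h2F A B hAs hBs hdeg hsep'
    ⟨x, hx, hx1, by
      rw [qf, hB, Matrix.neg_mulVec, dotProduct_neg, hx0, neg_zero]⟩
  have ht : IsIntegral F t := IsIntegral.of_finite F t
  -- the value of the polynomial
  have hPt : aeval t P ≠ 0 := by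
    intro h0
    apply hdet
    rw [← dp_eval', dp_map, hdp, eval_map, eval₂_mul, eval₂_C]
    have h1 : eval₂ (algebraMap F E) t P = 0 := h0
    rw [h1, mul_zero]
  have hirr : Irreducible (minpoly F t) := minpoly.irreducible ht
  set L := IntermediateField.adjoin F {t} with hL
  set γ : L := IntermediateField.AdjoinSimple.gen F t with hγ
  have hγt : algebraMap L E γ = t := IntermediateField.AdjoinSimple.algebraMap_gen F t
  have htower : Module.finrank F L * Module.finrank L E = Module.finrank F E :=
    Module.finrank_mul_finrank F L E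
  rw [← htower, Nat.odd_mul] at hodd
  have hdegodd : Odd (minpoly F t).natDegree := by
    rw [← IntermediateField.adjoin.finrank ht]
    exact hodd.1
  -- the member of the pencil over `L`
  set AL : Matrix (Fin 7) (Fin 7) L := A.map (algebraMap F L) + γ • B.map (algebraMap F L)
    with hAL
  have hmap : AL.map (algebraMap L E) = A.map (algebraMap F E) + t • B.map (algebraMap F E) := by
    ext i j
    simp only [hAL, Matrix.map_apply, Matrix.add_apply, Matrix.smul_apply, smul_eq_mul, map_add,
      map_mul, hγt]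
    rw [← IsScalarTower.algebraMap_apply F L E, ← IsScalarTower.algebraMap_apply F L E]
  have hALs : AL.transpose = AL := by
    rw [hAL, Matrix.transpose_add, Matrix.transpose_smul, ← Matrix.transpose_map,
      ← Matrix.transpose_map, hAs, hBs]
  have hALd : AL.det ≠ 0 := by
    intro h0
    apply hdet
    rw [← hmap]
    have h1 := RingHom.map_det (algebraMap L E) AL
    rw [h0, map_zero] at h1
    exact h1.symm
  have h2L : (2 : L) ≠ 0 := by
    intro h0
    apply h2F
    apply (algebraMap F L).injective
    rw [map_zero, map_ofNat]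
    exact h0
  rw [← hmap] at hiso
  have hisoL : IsoSp AL 3 := hSPW L E h2L hodd.2 7 3 AL hALs hALd hiso
  have hTI : TI AL 3 := (hCNV L h2L 7 3 AL hALs).1 hisoL
  refine ⟨minpoly F t, minpoly.monic ht, hirr, hdegodd, ?_⟩
  intro E' _ ι t' ht'
  constructor
  · intro h0
    have hcop' : IsCoprime (minpoly F t) P := by
      rw [hirr.coprime_iff_not_dvd]
      intro hd
      exact hPt (minpoly.dvd_iff.1 hd)
    obtain ⟨u, v, huv⟩ := hcop'
    have h1 := congrArg (eval₂ ι t') huv
    rw [eval₂_add, eval₂_mul, eval₂_mul, ht', h0, mul_zero, mul_zero, add_zero, eval₂_one] at h1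
    exact zero_ne_one h1
  · set ψ : L →+* E' := (AdjoinRoot.lift ι t' ht').comp
      ((IntermediateField.adjoinRootEquivAdjoin F ht).symm : L →+* AdjoinRoot (minpoly F t))
      with hψ
    have hψγ : ψ γ = t' := by
      rw [hψ, RingHom.comp_apply]
      have h1 : (IntermediateField.adjoinRootEquivAdjoin F ht).symm γ =
          AdjoinRoot.root (minpoly F t) := by
        rw [AlgEquiv.symm_apply_eq, IntermediateField.adjoinRootEquivAdjoin_apply_root]
      show AdjoinRoot.lift ι t' ht' ((IntermediateField.adjoinRootEquivAdjoin F ht).symm γ) = t'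
      rw [h1, AdjoinRoot.lift_root]
    have hψF : ∀ a : F, ψ (algebraMap F L a) = ι a := by
      intro a
      show AdjoinRoot.lift ι t' ht'
        ((IntermediateField.adjoinRootEquivAdjoin F ht).symm (algebraMap F L a)) = ι a
      rw [AlgEquiv.commutes]
      exact AdjoinRoot.lift_of ht'
    have hAL' : ft (P.map ι) (D.map ι) t' = AL.map ψ := by
      rw [ft, hGMP F E' ι P D 1 hP hP7, hGMP F E' ι P D 0 hP hP7]
      ext i j
      simp only [hAL, hA, hB, Matrix.map_apply, Matrix.add_apply, Matrix.sub_apply,
        Matrix.smul_apply, Matrix.neg_apply, smul_eq_mul, map_add, map_mul, map_neg, hψγ, hψF]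
      ring
    rw [hAL']
    exact ti_map ψ AL hTI

end Pool.Agent.H49.N6D
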