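import Pool.Agent.H28.N6.Targets

/-!
# The local lemma for seven variables (row DSEV)
-/

set_option autoImplicit false

open MeasureTheory Pool.Agent.H28.N6

namespace Pool.Agent.H49.N6D

theorem dp_map {F E ι : Type} [Field F] [Field E] [Fintype ι] [DecidableEq ι] (φ : F →+* E)
    (A B : Matrix ι ι F) : dp (A.map φ) (B.map φ) = (dp A B).map φ := by
  rw [dp, dp, ← Polynomial.coe_mapRingHom, RingHom.map_det]
  congr 1
  ext i j : 2
  simp [RingHom.mapMatrix_apply, Matrix.map_apply]

theorem dp_eval' {F ι : Type} [Field F] [Fintype ι] [DecidableEq ι] (A B : Matrix ι ι F) (t : F) :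
    (dp A B).eval t = (A + t • B).det := by
  rw [dp, ← Polynomial.coe_evalRingHom, RingHom.map_det]
  congr 1
  ext i j
  simp only [RingHom.mapMatrix_apply, Matrix.map_apply, Matrix.add_apply, Matrix.smul_apply,
    smul_eq_mul, Polynomial.coe_evalRingHom, Polynomial.eval_add,
    Polynomial.eval_mul, Polynomial.eval_C, Polynomial.eval_X]

theorem qf_map {F E ι : Type} [Field F] [Field E] [Fintype ι] (φ : F →+* E)
    (A : Matrix ι ι F) (x : ι → F) : qf (A.map φ) (fun i => φ (x i)) = φ (qf A x) := by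
  simp only [qf, dotProduct, Matrix.mulVec, Matrix.map_apply, map_sum, map_mul]

theorem pf_SEV (hROT : T_ROT) (hSV1 : T_SV1) : T_SEV := by
  intro F _ _ _ h2 A B hA hB hdeg hsep hz
  obtain ⟨E, i1, i2, i3, i4, hfin, hodd, hnorm, e, he⟩ := hROT F (dp A B) (by rw [hdeg]; decide)
  refine ⟨E, i1, i2, i3, i4, hfin, hodd, hnorm, ?_⟩
  have hinj : Function.Injective (algebraMap F E) := (algebraMap F E).injective
  have hdp := dp_map (algebraMap F E) A B
  refine hSV1 E ?_ (A.map (algebraMap F E)) (B.map (algebraMap F E)) ?_ ?_ ?_ ?_ ?_ ?_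
  · intro h
    apply h2
    apply hinj
    rw [map_zero, map_ofNat]
    exact h
  · rw [← Matrix.transpose_map, hA]
  · rw [← Matrix.transpose_map, hB]
  · rw [hdp, Polynomial.natDegree_map]
    exact hdeg
  · rw [hdp]
    exact hsep.map
  · refine ⟨e, ?_⟩
    rw [hdp, Polynomial.eval_map]
    exact he
  · obtain ⟨x, hx, hx1, hx2⟩ := hz
    refine ⟨fun i => algebraMap F E (x i), ?_, ?_, ?_⟩
    · intro h0
      apply hx
      ext i
      apply hinj
      rw [Pi.zero_apply, map_zero]
      exact congrFun h0 i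
    · rw [qf_map, hx1, map_zero]
    · rw [qf_map, hx2, map_zero]

end Pool.Agent.H49.N6D
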